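import Pool.Agent.Helper45.CF.GoalsA

/-!
# Project CF (MP_d97caa_an), packet CF-POU: partitions of unity with small supports
-/

namespace Pool.Agent.Helper24.CF.POU

open Pool.Agent.Helper45.CF

theorem t : S_POU := by
  intro Z _ _ δ hδ
  obtain ⟨s, hfin, hcov⟩ :=
    Metric.totallyBounded_iff.1 (isCompact_univ (X := Z)).totallyBounded δ hδ
  haveI : Fintype s := hfin.fintype
  let e := Fintype.equivFin s
  let z : Fin (Fintype.card s) → Z := fun k => (e.symm k : Z)
  let h : Fin (Fintype.card s) → Z → ℝ := fun k x => max 0 (δ - dist x (z k))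
  have hc : ∀ k, Continuous (h k) := fun k => by
    show Continuous fun x => max 0 (δ - dist x (z k))
    fun_prop
  have h0 : ∀ k x, 0 ≤ h k x := fun k x => le_max_left _ _
  let H : Z → ℝ := fun x => ∑ k, h k x
  have hHc : Continuous H := continuous_finset_sum _ fun k _ => hc k
  have hHpos : ∀ x, 0 < H x := by
    intro x
    have hx := hcov (Set.mem_univ x)
    simp only [Set.mem_iUnion, Metric.mem_ball, exists_prop] at hx
    obtain ⟨y, hy, hxy⟩ := hx
    refine Finset.sum_pos' (fun k _ => h0 k x) ⟨e ⟨y, hy⟩, Finset.mem_univ _, ?_⟩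
    have hz : z (e ⟨y, hy⟩) = y := by simp [z]
    show 0 < max 0 (δ - dist x (z (e ⟨y, hy⟩)))
    rw [hz]
    exact lt_max_of_lt_right (by linarith)
  refine ⟨Fintype.card s, z, fun k => ⟨fun x => Real.sqrt (h k x / H x), ?_⟩, ?_, ?_⟩
  · exact ((hc k).div hHc fun x => (hHpos x).ne').sqrt
  · intro x
    have : ∀ k, Real.sqrt (h k x / H x) ^ 2 = h k x / H x := fun k =>
      Real.sq_sqrt (div_nonneg (h0 k x) (hHpos x).le)
    show ∑ k, Real.sqrt (h k x / H x) ^ 2 = 1
    rw [Finset.sum_congr rfl fun k _ => this k, ← Finset.sum_div]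
    exact div_self (hHpos x).ne'
  · intro k x hne
    by_contra hge
    apply hne
    show Real.sqrt (h k x / H x) = 0
    have : h k x = 0 := by
      show max 0 (δ - dist x (z k)) = 0
      exact max_eq_left (by linarith [not_lt.1 hge])
    rw [this, zero_div, Real.sqrt_zero]

end Pool.Agent.Helper24.CF.POU
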